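import Pool.Agent.H88.MCR.Stmts

/-! MCR row ARV: reversing a chain of arcs. -/

namespace Pool.MCR

lemma arcs_append_two {L : Type} : ∀ (l : List L) (s : Bool) (y x : L),
    arcs s (l ++ [y, x]) = arcs s (l ++ [y]) ++ [(xor s (Nat.bodd l.length), y, x)] := by
  intro l
  induction l with
  | nil =>
    intro s y x
    simp [arcs]
  | cons a t ih =>
    intro s y x
    cases t with
    | nil =>
      simp [arcs]
    | cons b t =>
      have h := ih (!s) y x
      simp only [List.cons_append, arcs] at h ⊢
      rw [h]
      simp only [List.length_cons, Nat.bodd_succ]
      cases s <;> cases Nat.bodd t.length <;> simp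

theorem arv_thm : ARV_S := by
  intro L l
  induction l with
  | nil =>
    intro s t a b h
    simp [arcs] at h
  | cons c l ih =>
    intro s t a b h
    cases l with
    | nil => simp [arcs] at h
    | cons d l =>
      simp only [arcs, List.mem_cons] at h
      have hrev : (c :: d :: l).reverse = l.reverse ++ [d, c] := by simp
      have hrev' : (d :: l).reverse = l.reverse ++ [d] := by simp
      rw [hrev, arcs_append_two, List.mem_append, List.mem_singleton]
      rcases h with h | h
      · right
        simp only [Prod.mk.injEq] at h ⊢
        obtain ⟨rfl, rfl, rfl⟩ := h
        refine ⟨?_, rfl, rfl⟩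
        simp only [List.length_cons, List.length_reverse, Nat.bodd_succ]
        cases t <;> cases Nat.bodd l.length <;> rfl
      · left
        have h2 := ih (!s) t a b h
        rw [hrev'] at h2
        have e : xor (!s) (Nat.bodd (d :: l).length) = xor s (Nat.bodd (c :: d :: l).length) := by
          simp only [List.length_cons, Nat.bodd_succ]
          cases s <;> cases Nat.bodd l.length <;> rfl
        rw [e] at h2
        exact h2

end Pool.MCR
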